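import Pool.Agent.Helper65.NX.Goals2
import Pool.Agent.Helper72.HC.WCS

/-!
# Packet NW-CVAL: the contents of the cells of the network of a circuit
-/

namespace Pool.Agent.Helper65.NX.K30

open Pool.Agent.Helper65.LinSpace Pool.Agent.Helper78.Mpc Pool.Agent.Helper28.Ram Finset
open Pool.Agent.Helper65.HC Pool.Agent.Helper65.NX

variable {A : Circ} {N : Net}

theorem inp_zero (hN : IsCirc A N) (n : ℕ) (p z : List Bool) (hz : z.length = p.length) (t : ℕ) :
    N.inp n p t z 0 = z := by
  have h : N.nb (hd n t p z ++ (0 : ℕ).bits) = z := by
    rw [hN.nb, cnb, hr_hd, if_neg (by simp), hz_hd]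
  unfold Net.inp
  rw [h, if_pos hz]

theorem inp_one (hN : IsCirc A N) (n : ℕ) (p z : List Bool) (u : ℕ) (hu : u < bval p) :
    N.inp n p (2 * u + 2) z 1 = pad p.length u.bits := by
  have h : N.nb (hd n (2 * u + 2) p z ++ (1 : ℕ).bits) = pad p.length u.bits := by
    rw [hN.nb, cnb, hr_hd, ht_hd, hp_hd, if_pos ⟨by omega, by omega, by simp⟩]
    rw [show (2 * u + 2) / 2 - 1 = u by omega]
  have h2 : (pad p.length u.bits).length = p.length := by
    rw [length_pad]
    have := Pool.Agent.Helper78.Mpc.length_bits (hu.trans (bval_lt p))
    omega
  unfold Net.inp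
  rw [h, if_pos h2]

/-- One step of the network. -/
theorem val_succ (hN : IsCirc A N) (w y p z : List Bool) (hz : z.length = p.length) (t : ℕ) :
    N.val w y p (t + 1) z = cnext A (sd (w[if bval z < w.length then bval z else
      bval z - w.length]?).toList ++ (sd (y[if bval z < w.length then bval z else
      bval z - w.length]?).toList ++ (hd w.length t p z ++ (sd (N.val w y p t z) ++
        sd (N.val w y p t (N.inp w.length p t z 1)))))) := by
  have hv : N.view w.length p t (N.val w y p t) z N.deg = hd w.length t p z ++
      (sd (N.val w y p t z) ++ sd (N.val w y p t (N.inp w.length p t z 1))) := by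
    rw [hN.deg]
    show (hd w.length t p z ++ sd (N.val w y p t (N.inp w.length p t z 0))) ++
      sd (N.val w y p t (N.inp w.length p t z 1)) = _
    rw [inp_zero hN _ p z hz, List.append_assoc]
  have ha : ∀ b, bval (N.addr (b :: N.view w.length p t (N.val w y p t) z N.deg)) =
      if bval z < w.length then bval z else bval z - w.length := by
    intro b
    rw [hv, hN.addr]
    simp only [List.drop_succ_cons, List.drop_zero]
    rw [cadr, Pool.Agent.Helper31.TMS.bval_bits, hz_hd, hn_hd]
  show N.step w y p t (N.val w y p t) z = _
  unfold Net.step
  simp only []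
  rw [ha, ha, hv, hN.next]

theorem flg_drop (v : List Bool) : (flg v).drop 1 = v := by
  unfold flg
  split_ifs <;> rfl

/-- CVAL. -/
theorem cval : CVAL_stmt := by
  intro A N hN w y p z hz t
  induction t generalizing z with
  | zero => rfl
  | succ t ih =>
    rw [val_succ hN w y p z hz t]
    have ihz := ih z hz
    rw [ihz]
    obtain ⟨c, hc⟩ : ∃ c, c = N.val w y p t (N.inp w.length p t z 1) := ⟨_, rfl⟩
    rw [← hc]
    obtain ⟨i, hi⟩ : ∃ i, i = bval z := ⟨_, rfl⟩
    obtain ⟨P, hP⟩ : ∃ P, P = bval p := ⟨_, rfl⟩
    unfold cnext
    rw [re_sd, re_sd, pr_sd, pr_sd, hp_hd, hz_hd, ht_hd, hn_hd, hr_hd, pr_sd, re_sd, pr_sd', ← hi,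
      ← hP]
    by_cases h1 : P < i
    · rw [if_pos h1]
      unfold cc
      rw [if_pos (Or.inr (Or.inl h1))]
    rw [if_neg h1]
    by_cases h2 : t = 0
    · subst h2
      rw [if_pos rfl]
      have e : cc A w y P (0 + 1) i = match (w ++ y)[i]? with
          | some b => [false, true, b]
          | none => [false, false] := by
        unfold cc
        rw [if_neg (by omega), if_neg (by omega)]
        cases (w ++ y)[i]? <;> rfl
      rw [e]
      by_cases h3 : i < w.length
      · rw [if_pos h3, if_pos h3, List.getElem?_append_left h3, List.getElem?_eq_getElem h3]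
        rfl
      · rw [if_neg h3, if_neg h3, List.getElem?_append_right (by omega)]
        cases y[i - w.length]? <;> simp
    rw [if_neg h2]
    by_cases h3 : t % 2 = 1
    · rw [if_pos h3]
      obtain ⟨u, hu⟩ : ∃ u, t = 2 * u + 1 := ⟨t / 2, by omega⟩
      subst hu
      rw [show (2 * u + 1) / 2 = u by omega]
      by_cases h4 : i = u
      · subst h4
        rw [if_pos rfl]
        have e1 : cc A w y P (2 * i + 1) i = match (w ++ y)[i]? with
            | some b => [false, true, b]
            | none => [false, false] ++ A.scan w.length i (A.vals w y i) i := by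
          unfold cc
          rw [if_neg (by omega), if_neg (by omega)]
          rw [show (2 * i + 1 - 1) / 2 = i by omega]
          cases (w ++ y)[i]? <;> rfl
        have e2 : cc A w y P (2 * i + 1 + 1) i = flg (A.val w y i) := by
          unfold cc
          rw [if_neg (by omega), if_pos (by omega)]
        rw [e1, e2]
        unfold Circ.val Circ.gate
        cases (w ++ y)[i]? with
        | none => simp
        | some b => simp [flg]
      · rw [if_neg h4]
        unfold cc
        rw [show (2 * u + 1 - 1) / 2 = u by omega, show (2 * u + 1 + 1 - 1) / 2 = u by omega]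
        by_cases h5 : i < u
        · rw [if_pos (by omega), if_pos (by omega)]
        · rw [if_neg (by omega), if_neg (by omega), if_neg (by omega), if_neg (by omega)]
    · rw [if_neg h3]
      obtain ⟨u, hu⟩ : ∃ u, t = 2 * u + 2 := ⟨t / 2 - 1, by omega⟩
      subst hu
      rw [show (2 * u + 2) / 2 = u + 1 by omega, show u + 1 - 1 = u by omega]
      by_cases h4 : i < u + 1
      · rw [if_pos (Or.inl h4)]
        unfold cc
        rw [if_pos (by omega)]
      · have hc2 : c.drop 1 = A.val w y u := by
          rw [hc, inp_one hN _ _ _ u (by omega), ih _ (by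
            rw [length_pad]
            have := Pool.Agent.Helper78.Mpc.length_bits
              ((show u < bval p by omega).trans (bval_lt p))
            omega), bval_pad, Pool.Agent.Helper31.TMS.bval_bits]
          have e : cc A w y (bval p) (2 * u + 2) u = flg (A.val w y u) := by
            unfold cc
            rw [if_neg (by omega), if_pos (by omega)]
          rw [e, flg_drop]
        rw [hc2]
        have e1 : cc A w y P (2 * u + 2) i = match (w ++ y)[i]? with
            | some b => [false, true, b]
            | none => [false, false] ++ A.scan w.length i (A.vals w y i) u := by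
          unfold cc
          rw [if_neg (by omega), if_neg (by omega)]
          rw [show (2 * u + 2 - 1) / 2 = u by omega]
          cases (w ++ y)[i]? <;> rfl
        have e2 : cc A w y P (2 * u + 2 + 1) i = match (w ++ y)[i]? with
            | some b => [false, true, b]
            | none => [false, false] ++ A.scan w.length i (A.vals w y i) (u + 1) := by
          unfold cc
          rw [if_neg (by omega), if_neg (by omega)]
          rw [show (2 * u + 2 + 1 - 1) / 2 = u + 1 by omega]
          cases (w ++ y)[i]? <;> rfl
        rw [e1, e2]
        cases (w ++ y)[i]? with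
        | some b => simp [h4]
        | none =>
          have e3 : A.scan w.length i (A.vals w y i) (u + 1) = A.step (sd w.length.bits ++
              (sd i.bits ++ (sd u.bits ++ (sd (A.scan w.length i (A.vals w y i) u) ++
                A.vals w y i u)))) := rfl
          simp only []
          rw [e3, Pool.Agent.Helper72.HC.vals_eq A w y (show u < i by omega)]
          rw [if_neg (by
            rintro (h | h)
            · exact h4 h
            · simp at h), if_neg (by simp)]
          rfl

end Pool.Agent.Helper65.NX.K30
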